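import Pool.Agent.H68.Hx.Trunc

/-! # Improved Sobolev inequality

If `∫_{B_r(x)} |u| ≤ B r^(N - 2/(p-2))` for all balls of radius `r ≤ r₀`, then
`∫ |u|^p ≤ C B^(p-2) (∫ |∇u|² + r₀⁻² ∫ u²)`. -/

set_option autoImplicit false

open MeasureTheory Filter Topology
open scoped RealInnerProductSpace ENNReal

namespace Pool.Agent.H68.Hx

open Pool.Agent.H25.HX

variable {N : ℕ} {Ω : Set (E N)}

theorem vol_ball {r : ℝ} (hr : 0 < r) (x : E N) : volume (Metric.ball x r) =
    ENNReal.ofReal (r ^ N) * volume (Metric.ball (0 : E N) 1) := by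
  rw [Measure.addHaar_ball_of_pos _ _ hr]
  simp

/-- volume of the unit ball -/
noncomputable def om (N : ℕ) : ℝ := (volume (Metric.ball (0 : E N) 1)).toReal

theorem om_pos (N : ℕ) : 0 < om N :=
  ENNReal.toReal_pos (Metric.measure_ball_pos volume 0 one_pos).ne' measure_ball_lt_top.ne

theorem vol_one (N : ℕ) : volume (Metric.ball (0 : E N) 1) = ENNReal.ofReal (om N) :=
  (ENNReal.ofReal_toReal measure_ball_lt_top.ne).symm

/-- one level -/
theorem lev {p : ℝ} (hp : 2 < p) {u : E N → ℝ} {U : E N → E N} (h : H10 Ω u U)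
    (hu : Measurable u) {B r₀ : ℝ} (hB : 0 < B) (hr₀ : 0 < r₀)
    (hA : ∀ (x : E N) (r : ℝ), 0 < r → r ≤ r₀ →
      ∫⁻ y in Metric.ball x r, ENNReal.ofReal |u y| ≤
        ENNReal.ofReal (B * r ^ ((N : ℝ) - 2 / (p - 2)))) {l : ℝ} (hl : 0 < l) :
    ∫⁻ x in {x | 2 * l ≤ |u x| ∧ |u x| < 2 * (2 * l)}, ENNReal.ofReal (|u x| ^ p) ≤
      ENNReal.ofReal (4 ^ (p + 2) * (8 / om N) ^ (p - 2) * B ^ (p - 2)) *
        ((∫⁻ x in {x | l ≤ |u x| ∧ |u x| < 2 * l}, ENNReal.ofReal (‖U x‖ ^ 2)) +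
          ENNReal.ofReal ((r₀ ^ 2)⁻¹) *
            ∫⁻ x in {x | 2 * l ≤ |u x| ∧ |u x| < 2 * (2 * l)}, ENNReal.ofReal (u x ^ 2)) := by
  have hp2 : 0 < p - 2 := by linarith
  have hω := om_pos N
  have hS : MeasurableSet {x | 2 * l ≤ |u x| ∧ |u x| < 2 * (2 * l)} :=
    (measurableSet_le measurable_const hu.abs).inter (measurableSet_lt hu.abs measurable_const)
  set r : ℝ := (2 * B / (om N * l)) ^ ((p - 2) / 2) with hrdef
  have hq : 0 < 2 * B / (om N * l) := by positivity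
  have hr : 0 < r := Real.rpow_pos_of_pos hq _
  have hr2 : r ^ 2 = (2 * B / (om N * l)) ^ (p - 2) := by
    rw [hrdef, ← Real.rpow_natCast, ← Real.rpow_mul hq.le]
    congr 1
    push_cast
    ring
  by_cases hc : r ≤ r₀
  · have h1 : ∀ x : E N, ∫⁻ y in Metric.ball x r, ENNReal.ofReal |u y| ≤
        ENNReal.ofReal (l / 2) * volume (Metric.ball (0 : E N) r) := by
      intro x
      refine (hA x r hr hc).trans (le_of_eq ?_)
      rw [vol_ball hr, vol_one, ← ENNReal.ofReal_mul (by positivity),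
        ← ENNReal.ofReal_mul (by positivity)]
      congr 1
      rw [Real.rpow_sub hr, Real.rpow_natCast]
      have h2 : r ^ (2 / (p - 2)) = 2 * B / (om N * l) := by
        rw [hrdef, ← Real.rpow_mul hq.le]
        have : (p - 2) / 2 * (2 / (p - 2)) = 1 := by field_simp
        rw [this, Real.rpow_one]
      rw [h2]
      field_simp
    have h3 := level h hu hl hr h1
    calc ∫⁻ x in {x | 2 * l ≤ |u x| ∧ |u x| < 2 * (2 * l)}, ENNReal.ofReal (|u x| ^ p)
        ≤ ∫⁻ _ in {x | 2 * l ≤ |u x| ∧ |u x| < 2 * (2 * l)}, ENNReal.ofReal ((4 * l) ^ p) := by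
          apply setLIntegral_mono' hS
          intro x hx
          apply ENNReal.ofReal_le_ofReal
          exact Real.rpow_le_rpow (abs_nonneg _) (by linarith [hx.2]) (by linarith)
      _ = ENNReal.ofReal ((4 * l) ^ p) * volume {x | 2 * l ≤ |u x| ∧ |u x| < 2 * (2 * l)} := by
          rw [setLIntegral_const]
      _ ≤ ENNReal.ofReal ((4 * l) ^ p) * volume {x | 2 * l ≤ |u x|} := by
          exact mul_le_mul' le_rfl (measure_mono fun x hx => hx.1)
      _ = ENNReal.ofReal (4 ^ (p + 1) * l ^ (p - 2)) *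
            (ENNReal.ofReal (l ^ 2 / 4) * volume {x | 2 * l ≤ |u x|}) := by
          rw [← mul_assoc, ← ENNReal.ofReal_mul (by positivity)]
          congr 2
          rw [Real.mul_rpow (by norm_num) hl.le, Real.rpow_add (by norm_num), Real.rpow_one,
            Real.rpow_sub hl, Real.rpow_ofNat]
          field_simp
      _ ≤ ENNReal.ofReal (4 ^ (p + 1) * l ^ (p - 2)) * (ENNReal.ofReal (r ^ 2) *
            (4 * ∫⁻ x in {x | l ≤ |u x| ∧ |u x| < 2 * l}, ENNReal.ofReal (‖U x‖ ^ 2))) := by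
          gcongr
      _ = ENNReal.ofReal (4 ^ (p + 2) * (2 / om N) ^ (p - 2) * B ^ (p - 2)) *
            ∫⁻ x in {x | l ≤ |u x| ∧ |u x| < 2 * l}, ENNReal.ofReal (‖U x‖ ^ 2) := by
          rw [show (4 : ℝ≥0∞) = ENNReal.ofReal 4 by norm_num, ← mul_assoc, ← mul_assoc,
            ← ENNReal.ofReal_mul (by positivity), ← ENNReal.ofReal_mul (by positivity)]
          congr 2
          rw [hr2]
          have h4 : (2 * B / (om N * l)) ^ (p - 2) * l ^ (p - 2) =
              (2 / om N) ^ (p - 2) * B ^ (p - 2) := by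
            rw [← Real.mul_rpow hq.le hl.le, ← Real.mul_rpow (by positivity) hB.le]
            congr 1
            field_simp
          have h5 : (4:ℝ) ^ (p + 2) = 4 ^ (p + 1) * 4 := by
            rw [show p + 2 = p + 1 + 1 by ring, Real.rpow_add_one (by norm_num)]
          rw [h5]
          linear_combination (4 ^ (p + 1) * 4 : ℝ) * h4
      _ ≤ ENNReal.ofReal (4 ^ (p + 2) * (8 / om N) ^ (p - 2) * B ^ (p - 2)) *
            ∫⁻ x in {x | l ≤ |u x| ∧ |u x| < 2 * l}, ENNReal.ofReal (‖U x‖ ^ 2) := by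
          gcongr
          norm_num
      _ ≤ _ := by
          gcongr
          exact le_self_add
  · have hc' : r₀ < r := not_le.1 hc
    have h6 : (4 * l) ^ (p - 2) ≤ (8 / om N) ^ (p - 2) * B ^ (p - 2) * (r₀ ^ 2)⁻¹ := by
      have h7 : r₀ ^ 2 ≤ (2 * B / (om N * l)) ^ (p - 2) := by
        rw [← hr2]
        exact pow_le_pow_left₀ hr₀.le hc'.le 2
      have h8 : (4 * l) ^ (p - 2) * (2 * B / (om N * l)) ^ (p - 2) =
          (8 / om N) ^ (p - 2) * B ^ (p - 2) := by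
        rw [← Real.mul_rpow (by positivity) hq.le, ← Real.mul_rpow (by positivity) hB.le]
        congr 1
        field_simp
        norm_num
      rw [← div_eq_mul_inv, le_div_iff₀ (by positivity), ← h8]
      exact mul_le_mul_of_nonneg_left h7 (by positivity)
    calc ∫⁻ x in {x | 2 * l ≤ |u x| ∧ |u x| < 2 * (2 * l)}, ENNReal.ofReal (|u x| ^ p)
        ≤ ∫⁻ x in {x | 2 * l ≤ |u x| ∧ |u x| < 2 * (2 * l)},
            ENNReal.ofReal ((4 * l) ^ (p - 2)) * ENNReal.ofReal (u x ^ 2) := by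
          apply setLIntegral_mono' hS
          intro x hx
          rw [← ENNReal.ofReal_mul (by positivity)]
          apply ENNReal.ofReal_le_ofReal
          have hpos : 0 < |u x| := by linarith [hx.1]
          have h9 : |u x| ^ p = |u x| ^ (p - 2) * u x ^ 2 := by
            rw [← sq_abs, ← Real.rpow_ofNat, ← Real.rpow_add hpos]
            congr 1
            ring
          rw [h9]
          apply mul_le_mul_of_nonneg_right _ (sq_nonneg _)
          exact Real.rpow_le_rpow (abs_nonneg _) (by linarith [hx.2]) hp2.le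
      _ = ENNReal.ofReal ((4 * l) ^ (p - 2)) *
            ∫⁻ x in {x | 2 * l ≤ |u x| ∧ |u x| < 2 * (2 * l)}, ENNReal.ofReal (u x ^ 2) :=
          lintegral_const_mul' _ _ ENNReal.ofReal_ne_top
      _ ≤ ENNReal.ofReal (4 ^ (p + 2) * (8 / om N) ^ (p - 2) * B ^ (p - 2)) *
            (ENNReal.ofReal ((r₀ ^ 2)⁻¹) *
            ∫⁻ x in {x | 2 * l ≤ |u x| ∧ |u x| < 2 * (2 * l)}, ENNReal.ofReal (u x ^ 2)) := by
          generalize ∫⁻ x in {x | 2 * l ≤ |u x| ∧ |u x| < 2 * (2 * l)},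
            ENNReal.ofReal (u x ^ 2) = I2
          rw [← mul_assoc, ← ENNReal.ofReal_mul (by positivity)]
          gcongr
          refine h6.trans ?_
          have h10 : (1 : ℝ) ≤ 4 ^ (p + 2) := Real.one_le_rpow (by norm_num) (by linarith)
          have h11 : 0 ≤ (8 / om N) ^ (p - 2) * B ^ (p - 2) * (r₀ ^ 2)⁻¹ := by positivity
          nlinarith
      _ ≤ _ := by
          gcongr
          exact le_add_self

theorem T_disj (u : E N → ℝ) : Pairwise (Function.onFun Disjoint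
    fun k : ℤ => {x : E N | (2:ℝ) ^ k ≤ |u x| ∧ |u x| < 2 * 2 ^ k}) := by
  intro i j hij
  apply Set.disjoint_left.2
  rintro x ⟨h1, h2⟩ ⟨h3, h4⟩
  have key : ∀ a b : ℤ, a < b → (2:ℝ) * 2 ^ a ≤ 2 ^ b := by
    intro a b hab
    rw [← zpow_one_add₀ (by norm_num : (2:ℝ) ≠ 0)]
    exact zpow_le_zpow_right₀ (by norm_num) (by omega)
  rcases lt_or_gt_of_ne hij with h | h
  · linarith [key i j h]
  · linarith [key j i h]

theorem T_cover (u : E N → ℝ) : {x | u x ≠ 0} ⊆
    ⋃ k : ℤ, {x : E N | (2:ℝ) ^ k ≤ |u x| ∧ |u x| < 2 * 2 ^ k} := by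
  intro x hx
  have h0 : 0 < |u x| := abs_pos.2 hx
  obtain ⟨k, h1, h2⟩ := exists_mem_Ico_zpow h0 (by norm_num : (1:ℝ) < 2)
  refine Set.mem_iUnion.2 ⟨k, h1, ?_⟩
  rw [← zpow_one_add₀ (by norm_num : (2:ℝ) ≠ 0), add_comm]
  exact h2

theorem imp_sob_lint {p : ℝ} (hp : 2 < p) {u : E N → ℝ} {U : E N → E N} (h : H10 Ω u U)
    (hu : Measurable u) {B r₀ : ℝ} (hB : 0 < B) (hr₀ : 0 < r₀)
    (hA : ∀ (x : E N) (r : ℝ), 0 < r → r ≤ r₀ →
      ∫⁻ y in Metric.ball x r, ENNReal.ofReal |u y| ≤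
        ENNReal.ofReal (B * r ^ ((N : ℝ) - 2 / (p - 2)))) :
    ∫⁻ x, ENNReal.ofReal (|u x| ^ p) ≤
      ENNReal.ofReal (4 ^ (p + 2) * (8 / om N) ^ (p - 2) * B ^ (p - 2)) *
        ((∫⁻ x, ENNReal.ofReal (‖U x‖ ^ 2)) +
          ENNReal.ofReal ((r₀ ^ 2)⁻¹) * ∫⁻ x, ENNReal.ofReal (u x ^ 2)) := by
  set T : ℤ → Set (E N) := fun k : ℤ => {x : E N | (2:ℝ) ^ k ≤ |u x| ∧ |u x| < 2 * 2 ^ k}
    with hT
  have hTm : ∀ k, MeasurableSet (T k) := fun k =>
    (measurableSet_le measurable_const hu.abs).inter (measurableSet_lt hu.abs measurable_const)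
  have hsum : ∀ f : E N → ℝ≥0∞, ∑' k, ∫⁻ x in T k, f x ≤ ∫⁻ x, f x := by
    intro f
    rw [← lintegral_iUnion hTm (T_disj u)]
    exact setLIntegral_le_lintegral _ _
  have hsum' : ∀ f : E N → ℝ≥0∞, ∑' k, ∫⁻ x in T (k + 1), f x ≤ ∫⁻ x, f x := by
    intro f
    have := (Equiv.addRight (1 : ℤ)).tsum_eq fun k => ∫⁻ x in T k, f x
    simp only [Equiv.coe_addRight] at this
    rw [this]
    exact hsum f
  have h1 : ∫⁻ x, ENNReal.ofReal (|u x| ^ p) ≤
      ∑' k : ℤ, ∫⁻ x in T (k + 1), ENNReal.ofReal (|u x| ^ p) := by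
    have := (Equiv.addRight (1 : ℤ)).tsum_eq fun k => ∫⁻ x in T k, ENNReal.ofReal (|u x| ^ p)
    simp only [Equiv.coe_addRight] at this
    rw [this, ← lintegral_iUnion hTm (T_disj u),
      ← lintegral_indicator (MeasurableSet.iUnion hTm)]
    apply lintegral_mono
    intro x
    simp only
    by_cases hx : u x = 0
    · rw [hx, abs_zero, Real.zero_rpow (by linarith), ENNReal.ofReal_zero]
      exact zero_le
    · rw [Set.indicator_of_mem (T_cover u hx)]
  have h2 : ∀ k : ℤ, T (k + 1) =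
      {x : E N | 2 * (2:ℝ) ^ k ≤ |u x| ∧ |u x| < 2 * (2 * 2 ^ k)} := by
    intro k
    have : (2:ℝ) ^ (k + 1) = 2 * 2 ^ k := by
      rw [add_comm, zpow_one_add₀ (by norm_num : (2:ℝ) ≠ 0)]
    simp only [hT, this]
  have h3 : ∀ k : ℤ, ∫⁻ x in T (k + 1), ENNReal.ofReal (|u x| ^ p) ≤
      ENNReal.ofReal (4 ^ (p + 2) * (8 / om N) ^ (p - 2) * B ^ (p - 2)) *
        ((∫⁻ x in T k, ENNReal.ofReal (‖U x‖ ^ 2)) +
          ENNReal.ofReal ((r₀ ^ 2)⁻¹) * ∫⁻ x in T (k + 1), ENNReal.ofReal (u x ^ 2)) := by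
    intro k
    have := lev hp h hu hB hr₀ hA (l := 2 ^ k) (by positivity)
    rw [← h2] at this
    exact this
  refine h1.trans ((ENNReal.tsum_le_tsum h3).trans ?_)
  rw [ENNReal.tsum_mul_left, ENNReal.tsum_add, ENNReal.tsum_mul_left]
  gcongr
  · exact hsum _
  · exact hsum' _

/-- **Improved Sobolev inequality.** -/
theorem imp_sob {N : ℕ} {p : ℝ} (hp : 2 < p) : ∃ C : ℝ, 0 < C ∧
    ∀ (Ω : Set (E N)) (u : E N → ℝ) (U : E N → E N), H10 Ω u U → ∀ B r₀ : ℝ, 0 ≤ B → 0 < r₀ →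
    (∀ (x : E N) (r : ℝ), 0 < r → r ≤ r₀ →
      ∫ y in Metric.ball x r, |u y| ≤ B * r ^ ((N : ℝ) - 2 / (p - 2))) →
    Integrable (fun x => |u x| ^ p) ∧
      ∫ x, |u x| ^ p ≤ C * B ^ (p - 2) * ((∫ x, ‖U x‖ ^ 2) + (r₀ ^ 2)⁻¹ * ∫ x, u x ^ 2) := by
  have hω := om_pos N
  refine ⟨4 ^ (p + 2) * (8 / om N) ^ (p - 2), by positivity, ?_⟩
  intro Ω u U h B r₀ hB hr₀ hA
  obtain ⟨u', hu', hae⟩ := h.1.1
  have h' : H10 Ω u' U := h.congr hae (ae_eq_refl _)
  -- the case of positive bounds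
  have key : ∀ B' : ℝ, 0 < B' → B ≤ B' → ∫⁻ x, ENNReal.ofReal (|u x| ^ p) ≤
      ENNReal.ofReal (4 ^ (p + 2) * (8 / om N) ^ (p - 2) * B' ^ (p - 2) *
        ((∫ x, ‖U x‖ ^ 2) + (r₀ ^ 2)⁻¹ * ∫ x, u x ^ 2)) := by
    intro B' hB' hBB'
    have hA' : ∀ (x : E N) (r : ℝ), 0 < r → r ≤ r₀ →
        ∫⁻ y in Metric.ball x r, ENNReal.ofReal |u' y| ≤
          ENNReal.ofReal (B' * r ^ ((N : ℝ) - 2 / (p - 2))) := by
      intro x r hr hrr
      have h1 : IntegrableOn (fun y => |u y|) (Metric.ball x r) volume := by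
        have h2 : MemLp u 2 (volume.restrict (Metric.ball x r)) := h.1.restrict _
        have : IsFiniteMeasure (volume.restrict (Metric.ball x r)) :=
          ⟨by rw [Measure.restrict_apply_univ]; exact measure_ball_lt_top⟩
        exact (h2.integrable (by norm_num)).abs
      have h3 : ∫⁻ y in Metric.ball x r, ENNReal.ofReal |u' y| =
          ∫⁻ y in Metric.ball x r, ENNReal.ofReal |u y| := by
        apply lintegral_congr_ae
        filter_upwards [ae_restrict_of_ae hae] with y hy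
        rw [hy]
      rw [h3, ← ofReal_integral_eq_lintegral_ofReal h1 (ae_of_all _ fun y => abs_nonneg _)]
      apply ENNReal.ofReal_le_ofReal
      refine (hA x r hr hrr).trans ?_
      gcongr
    have h4 := imp_sob_lint hp h' hu'.measurable hB' hr₀ hA'
    have h5 : ∫⁻ x, ENNReal.ofReal (|u' x| ^ p) = ∫⁻ x, ENNReal.ofReal (|u x| ^ p) := by
      apply lintegral_congr_ae
      filter_upwards [hae] with y hy
      rw [hy]
    have h6 : ∫⁻ x, ENNReal.ofReal (u' x ^ 2) = ENNReal.ofReal (∫ x, u x ^ 2) := by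
      have := lint_sq h.1
      simp only [Real.norm_eq_abs, sq_abs] at this
      rw [← this]
      apply lintegral_congr_ae
      filter_upwards [hae] with y hy
      rw [hy]
    rw [h5, h6, lint_sq h.2.1, ← ENNReal.ofReal_mul (by positivity),
      ← ENNReal.ofReal_add (integral_nonneg fun _ => by positivity)
        (mul_nonneg (by positivity) (integral_nonneg fun _ => by positivity)),
      ← ENNReal.ofReal_mul (by positivity)] at h4
    exact h4
  have hmeas : AEStronglyMeasurable (fun x => |u x| ^ p) volume :=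
    ((Real.continuous_rpow_const (by linarith : (0:ℝ) ≤ p)).comp
      continuous_abs).comp_aestronglyMeasurable h.1.1
  have hint : Integrable (fun x => |u x| ^ p) volume := by
    refine ⟨hmeas, ?_⟩
    rw [hasFiniteIntegral_iff_ofReal (ae_of_all _ fun x => by positivity)]
    exact (key (B + 1) (by linarith) (by linarith)).trans_lt ENNReal.ofReal_lt_top
  refine ⟨hint, ?_⟩
  have hD : 0 ≤ (∫ x, ‖U x‖ ^ 2) + (r₀ ^ 2)⁻¹ * ∫ x, u x ^ 2 :=
    add_nonneg (integral_nonneg fun _ => by positivity)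
      (mul_nonneg (by positivity) (integral_nonneg fun _ => by positivity))
  have key2 : ∀ B' : ℝ, 0 < B' → B ≤ B' → ∫ x, |u x| ^ p ≤
      4 ^ (p + 2) * (8 / om N) ^ (p - 2) * B' ^ (p - 2) *
        ((∫ x, ‖U x‖ ^ 2) + (r₀ ^ 2)⁻¹ * ∫ x, u x ^ 2) := by
    intro B' hB' hBB'
    have h1 := key B' hB' hBB'
    rw [← ofReal_integral_eq_lintegral_ofReal hint (ae_of_all _ fun x => by positivity)] at h1
    exact (ENNReal.ofReal_le_ofReal_iff (mul_nonneg (by positivity) hD)).1 h1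
  -- pass to the limit
  have hlim : Tendsto (fun B' : ℝ => 4 ^ (p + 2) * (8 / om N) ^ (p - 2) * B' ^ (p - 2) *
        ((∫ x, ‖U x‖ ^ 2) + (r₀ ^ 2)⁻¹ * ∫ x, u x ^ 2)) (𝓝[>] B)
      (𝓝 (4 ^ (p + 2) * (8 / om N) ^ (p - 2) * B ^ (p - 2) *
        ((∫ x, ‖U x‖ ^ 2) + (r₀ ^ 2)⁻¹ * ∫ x, u x ^ 2))) := by
    apply tendsto_nhdsWithin_of_tendsto_nhds
    apply Continuous.tendsto
    exact (continuous_const.mul (Real.continuous_rpow_const (by linarith))).mul continuous_const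
  apply ge_of_tendsto hlim
  filter_upwards [self_mem_nhdsWithin] with B' hB'
  have : B < B' := hB'
  exact key2 B' (by linarith) this.le

end Pool.Agent.H68.Hx
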