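import Pool.Agent.H25.HX.Sob

/-! # Translation estimate: `∫ |h(x+y) - h(x)|² ≤ |y|² ∫ |∇h|²` -/

set_option autoImplicit false

open MeasureTheory Filter Topology
open scoped RealInnerProductSpace ENNReal

namespace Pool.Agent.H68.Hx

open Pool.Agent.H25.HX

variable {N : ℕ} {Ω : Set (E N)}

theorem sq_int_le {a : ℝ → ℝ} (ha : Continuous a) :
    (∫ t in (0:ℝ)..1, a t) ^ 2 ≤ ∫ t in (0:ℝ)..1, a t ^ 2 := by
  set m := ∫ t in (0:ℝ)..1, a t with hm
  have h0 : 0 ≤ ∫ t in (0:ℝ)..1, (a t - m) ^ 2 :=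
    intervalIntegral.integral_nonneg (by norm_num) fun t _ => sq_nonneg _
  have h1 : ∫ t in (0:ℝ)..1, (a t - m) ^ 2 = (∫ t in (0:ℝ)..1, a t ^ 2) - m ^ 2 := by
    have h2 : ∀ t, (a t - m) ^ 2 = a t ^ 2 - 2 * m * a t + m ^ 2 := fun t => by ring
    simp only [h2]
    rw [intervalIntegral.integral_add, intervalIntegral.integral_sub,
      intervalIntegral.integral_const_mul, ← hm, intervalIntegral.integral_const]
    · simp only [sub_zero, one_smul]
      ring
    · exact (ha.pow 2).intervalIntegrable _ _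
    · exact (continuous_const.mul ha).intervalIntegrable _ _
    · exact ((ha.pow 2).sub (continuous_const.mul ha)).intervalIntegrable _ _
    · exact continuous_const.intervalIntegrable _ _
  linarith

theorem diff_eq {φ : E N → ℝ} (h : ContDiff ℝ 1 φ) (x y : E N) :
    φ (x + y) - φ x = ∫ t in (0:ℝ)..1, ⟪gradient φ (x + t • y), y⟫ := by
  have h1 : ∀ t ∈ Set.uIcc (0:ℝ) 1, HasDerivAt (fun t : ℝ => φ (x + t • y))
      (⟪gradient φ (x + t • y), y⟫) t := by
    intro t _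
    rw [inner_gradient]
    have h2 : HasDerivAt (fun t : ℝ => x + t • y) y t := by
      simpa using ((hasDerivAt_id t).smul_const y).const_add x
    exact ((h.differentiable (by norm_num)) (x + t • y)).hasFDerivAt.comp_hasDerivAt t h2
  have hc : Continuous fun t : ℝ => ⟪gradient φ (x + t • y), y⟫ :=
    ((Tst.grad_cont h).comp (by fun_prop)).inner continuous_const
  rw [intervalIntegral.integral_eq_sub_of_hasDerivAt h1 (hc.intervalIntegrable _ _)]
  simp

theorem diff_sq_le {φ : E N → ℝ} (h : ContDiff ℝ 1 φ) (x y : E N) :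
    (φ (x + y) - φ x) ^ 2 ≤ ∫ t in (0:ℝ)..1, ‖y‖ ^ 2 * ‖gradient φ (x + t • y)‖ ^ 2 := by
  have hc : Continuous fun t : ℝ => gradient φ (x + t • y) :=
    (Tst.grad_cont h).comp (by fun_prop)
  rw [diff_eq h]
  refine (sq_int_le (hc.inner continuous_const)).trans ?_
  apply intervalIntegral.integral_mono_on (by norm_num)
  · exact ((hc.inner continuous_const).pow 2).intervalIntegrable _ _
  · exact (continuous_const.mul (hc.norm.pow 2)).intervalIntegrable _ _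
  · intro t _
    rw [← mul_pow]
    have := abs_real_inner_le_norm (gradient φ (x + t • y)) y
    calc ⟪gradient φ (x + t • y), y⟫ ^ 2 = |⟪gradient φ (x + t • y), y⟫| ^ 2 := (sq_abs _).symm
      _ ≤ (‖y‖ * ‖gradient φ (x + t • y)‖) ^ 2 := by
        apply pow_le_pow_left₀ (abs_nonneg _)
        rw [mul_comm]
        exact this

theorem trans_tst {φ : E N → ℝ} (h : ContDiff ℝ 1 φ) (y : E N) :
    ∫⁻ x, ENNReal.ofReal ((φ (x + y) - φ x) ^ 2) ≤
      ENNReal.ofReal (‖y‖ ^ 2) * ∫⁻ x, ENNReal.ofReal (‖gradient φ x‖ ^ 2) := by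
  have hg := Tst.grad_cont h
  have h1 : ∀ x : E N, ENNReal.ofReal ((φ (x + y) - φ x) ^ 2) ≤
      ∫⁻ t in Set.Ioc (0:ℝ) 1, ENNReal.ofReal (‖y‖ ^ 2 * ‖gradient φ (x + t • y)‖ ^ 2) := by
    intro x
    have hc : Continuous fun t : ℝ => ‖y‖ ^ 2 * ‖gradient φ (x + t • y)‖ ^ 2 :=
      continuous_const.mul ((hg.comp (by fun_prop)).norm.pow 2)
    rw [← ofReal_integral_eq_lintegral_ofReal (hc.integrableOn_Ioc)
      (ae_of_all _ fun t => by positivity), ← intervalIntegral.integral_of_le (by norm_num)]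
    exact ENNReal.ofReal_le_ofReal (diff_sq_le h x y)
  have hm : Measurable fun z : E N × ℝ =>
      ENNReal.ofReal (‖y‖ ^ 2 * ‖gradient φ (z.1 + z.2 • y)‖ ^ 2) := by
    apply Measurable.ennreal_ofReal
    exact (continuous_const.mul ((hg.comp (by fun_prop)).norm.pow 2)).measurable
  calc ∫⁻ x, ENNReal.ofReal ((φ (x + y) - φ x) ^ 2)
      ≤ ∫⁻ x, ∫⁻ t in Set.Ioc (0:ℝ) 1,
          ENNReal.ofReal (‖y‖ ^ 2 * ‖gradient φ (x + t • y)‖ ^ 2) := lintegral_mono h1
    _ = ∫⁻ t in Set.Ioc (0:ℝ) 1, ∫⁻ x,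
          ENNReal.ofReal (‖y‖ ^ 2 * ‖gradient φ (x + t • y)‖ ^ 2) :=
        lintegral_lintegral_swap hm.aemeasurable
    _ = ∫⁻ t in Set.Ioc (0:ℝ) 1, ENNReal.ofReal (‖y‖ ^ 2) *
          ∫⁻ x, ENNReal.ofReal (‖gradient φ x‖ ^ 2) := by
        congr 1
        funext t
        have h2 : ∀ x : E N, ENNReal.ofReal (‖y‖ ^ 2 * ‖gradient φ (x + t • y)‖ ^ 2) =
            ENNReal.ofReal (‖y‖ ^ 2) * ENNReal.ofReal (‖gradient φ (x + t • y)‖ ^ 2) :=
          fun x => ENNReal.ofReal_mul (by positivity)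
        simp only [h2]
        rw [lintegral_const_mul' _ _ ENNReal.ofReal_ne_top,
          lintegral_add_right_eq_self (fun x => ENNReal.ofReal (‖gradient φ x‖ ^ 2)) (t • y)]
    _ = ENNReal.ofReal (‖y‖ ^ 2) * ∫⁻ x, ENNReal.ofReal (‖gradient φ x‖ ^ 2) := by
        simp

theorem lint_sq {F : Type*} [NormedAddCommGroup F] {a : E N → F} (ha : MemLp a 2 volume) :
    ∫⁻ x, ENNReal.ofReal (‖a x‖ ^ 2) = ENNReal.ofReal (∫ x, ‖a x‖ ^ 2) :=
  (ofReal_integral_eq_lintegral_ofReal (sq_norm_integrable ha)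
    (ae_of_all _ fun _ => by positivity)).symm

/-- the translation estimate for `H¹₀` pairs -/
theorem trans_h10 {u : E N → ℝ} {U : E N → E N} (h : H10 Ω u U) (y : E N) :
    ∫⁻ x, ENNReal.ofReal ((u (x + y) - u x) ^ 2) ≤
      ENNReal.ofReal (‖y‖ ^ 2) * ∫⁻ x, ENNReal.ofReal (‖U x‖ ^ 2) := by
  obtain ⟨φ0, t0, c0, d0⟩ := h.seq
  obtain ⟨ns, hns, hae⟩ := ae_subseq h.1 (fun n => (t0 n).mem) c0
  have d : Tendsto (fun n => ∫ x, ‖U x - gradient (φ0 (ns n)) x‖ ^ 2) atTop (𝓝 0) :=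
    d0.comp hns.tendsto_atTop
  have hI : Tendsto (fun n => ∫ x, ⟪gradient (φ0 (ns n)) x, gradient (φ0 (ns n)) x⟫) atTop
      (𝓝 (∫ x, ⟪U x, U x⟫)) :=
    tendsto_int_inner h.2.1 h.2.1 (fun n => (t0 (ns n)).memG) (fun n => (t0 (ns n)).memG) d d
  simp only [real_inner_self_eq_norm_sq] at hI
  have hae2 : ∀ᵐ x : E N, Tendsto (fun i => φ0 (ns i) (x + y)) atTop (𝓝 (u (x + y))) :=
    (measurePreserving_add_right volume y).quasiMeasurePreserving.ae hae
  have h1 : ∀ᵐ x : E N, ENNReal.ofReal ((u (x + y) - u x) ^ 2) =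
      liminf (fun i => ENNReal.ofReal ((φ0 (ns i) (x + y) - φ0 (ns i) x) ^ 2)) atTop := by
    filter_upwards [hae, hae2] with x h1 h2
    exact ((ENNReal.continuous_ofReal.tendsto _).comp ((h2.sub h1).pow 2)).liminf_eq.symm
  rw [lintegral_congr_ae h1]
  refine (lintegral_liminf_le' ?_).trans ?_
  · intro n
    have hc := (t0 (ns n)).1.continuous
    apply Measurable.aemeasurable
    apply Measurable.ennreal_ofReal
    exact (((hc.comp (by fun_prop)).sub hc).pow 2).measurable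
  · have h2 : ∀ i, ∫⁻ x, ENNReal.ofReal ((φ0 (ns i) (x + y) - φ0 (ns i) x) ^ 2) ≤
        ENNReal.ofReal (‖y‖ ^ 2) * ENNReal.ofReal (∫ x, ‖gradient (φ0 (ns i)) x‖ ^ 2) := by
      intro i
      rw [← lint_sq (t0 (ns i)).memG]
      exact trans_tst (t0 (ns i)).1 y
    have h3 : Tendsto (fun i => ENNReal.ofReal (‖y‖ ^ 2) *
        ENNReal.ofReal (∫ x, ‖gradient (φ0 (ns i)) x‖ ^ 2)) atTop
        (𝓝 (ENNReal.ofReal (‖y‖ ^ 2) * ENNReal.ofReal (∫ x, ‖U x‖ ^ 2))) := by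
      apply ENNReal.Tendsto.const_mul
      · exact (ENNReal.continuous_ofReal.tendsto _).comp hI
      · right; exact ENNReal.ofReal_ne_top
    rw [lint_sq h.2.1, ← h3.liminf_eq]
    exact liminf_le_liminf (Eventually.of_forall h2)

end Pool.Agent.H68.Hx
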