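import Pool.Agent.H68.Hx.Trans

/-! # Smooth truncation and the level set estimate -/

set_option autoImplicit false

open MeasureTheory Filter Topology
open scoped RealInnerProductSpace ENNReal

namespace Pool.Agent.H68.Hx

open Pool.Agent.H25.HX

variable {N : ℕ} {Ω : Set (E N)}

/-- density of the smooth step -/
noncomputable def qd (s : ℝ) : ℝ := 6 * max 0 (s * (1 - s))

/-- smooth step: `0` for `t ≤ 0`, `1` for `t ≥ 1` -/
noncomputable def qs (t : ℝ) : ℝ := ∫ s in (0:ℝ)..t, qd s

theorem qd_cont : Continuous qd := by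
  unfold qd
  fun_prop

theorem qd_nonneg (s : ℝ) : 0 ≤ qd s := by
  unfold qd
  positivity

theorem qd_zero {s : ℝ} (h : s ≤ 0 ∨ 1 ≤ s) : qd s = 0 := by
  unfold qd
  have : s * (1 - s) ≤ 0 := by
    rcases h with h | h
    · exact mul_nonpos_of_nonpos_of_nonneg h (by linarith)
    · exact mul_nonpos_of_nonneg_of_nonpos (by linarith) (by linarith)
  rw [max_eq_left this, mul_zero]

theorem qd_le (s : ℝ) : qd s ≤ 3 / 2 := by
  unfold qd
  have : max 0 (s * (1 - s)) ≤ 1 / 4 := by
    apply max_le (by norm_num)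
    nlinarith [sq_nonneg (s - 1 / 2)]
  linarith

theorem qs_deriv (t : ℝ) : HasDerivAt qs (qd t) t :=
  intervalIntegral.integral_hasDerivAt_right (qd_cont.intervalIntegrable _ _)
    (qd_cont.stronglyMeasurableAtFilter _ _) qd_cont.continuousAt

theorem qs_mono : Monotone qs := by
  apply monotone_of_deriv_nonneg (fun t => (qs_deriv t).differentiableAt)
  intro t
  rw [(qs_deriv t).deriv]
  exact qd_nonneg t

theorem qs_zero {t : ℝ} (h : t ≤ 0) : qs t = 0 := by
  unfold qs
  rw [intervalIntegral.integral_congr (g := fun _ => (0:ℝ))]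
  · simp
  · intro s hs
    rw [Set.uIcc_of_ge h] at hs
    exact qd_zero (Or.inl hs.2)

theorem qs_one' : qs 1 = 1 := by
  unfold qs
  rw [intervalIntegral.integral_congr (g := fun s => 6 * s - 6 * s ^ 2)]
  · rw [intervalIntegral.integral_sub, intervalIntegral.integral_const_mul,
      intervalIntegral.integral_const_mul, integral_id, integral_pow]
    · norm_num
    · exact (by fun_prop : Continuous fun s : ℝ => 6 * s).intervalIntegrable _ _
    · exact (by fun_prop : Continuous fun s : ℝ => 6 * s ^ 2).intervalIntegrable _ _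
  · intro s hs
    rw [Set.uIcc_of_le (by norm_num)] at hs
    have : 0 ≤ s * (1 - s) := mul_nonneg hs.1 (by linarith [hs.2])
    simp only [qd]
    rw [max_eq_right this]
    ring

theorem qs_one {t : ℝ} (h : 1 ≤ t) : qs t = 1 := by
  have h1 : qs t = qs 1 + ∫ s in (1:ℝ)..t, qd s := by
    unfold qs
    rw [intervalIntegral.integral_add_adjacent_intervals (qd_cont.intervalIntegrable _ _)
      (qd_cont.intervalIntegrable _ _)]
  rw [h1, qs_one', intervalIntegral.integral_congr (g := fun _ => (0:ℝ))]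
  · simp
  · intro s hs
    rw [Set.uIcc_of_le h] at hs
    exact qd_zero (Or.inr hs.1)

theorem qs_nonneg (t : ℝ) : 0 ≤ qs t := by
  rcases le_total t 0 with h | h
  · rw [qs_zero h]
  · rw [← qs_zero (le_refl 0)]
    exact qs_mono h

theorem qs_le (t : ℝ) : qs t ≤ 1 := by
  rcases le_total 1 t with h | h
  · rw [qs_one h]
  · rw [← qs_one (le_refl 1)]
    exact qs_mono h

/-- truncation at level `l` -/
noncomputable def FL (l s : ℝ) : ℝ := l * qs (((s / l) ^ 2 - 1) / 3)

theorem FL_deriv {l : ℝ} (hl : 0 < l) (s : ℝ) :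
    HasDerivAt (FL l) (qd (((s / l) ^ 2 - 1) / 3) * (2 * (s / l) / 3)) s := by
  have h1 : HasDerivAt (fun s : ℝ => ((s / l) ^ 2 - 1) / 3) (2 * (s / l) / 3 * (1 / l)) s := by
    have h2 : HasDerivAt (fun s : ℝ => s / l) (1 / l) s := (hasDerivAt_id s).div_const l
    have h3 := ((h2.fun_pow 2).sub_const 1).div_const 3
    refine h3.congr_deriv ?_
    push_cast
    ring
  have h4 := ((qs_deriv (((s / l) ^ 2 - 1) / 3)).comp s h1).const_mul l
  refine h4.congr_deriv ?_
  field_simp

theorem FL_contDiff {l : ℝ} (hl : 0 < l) : ContDiff ℝ 1 (FL l) := by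
  rw [contDiff_one_iff_deriv]
  refine ⟨fun s => (FL_deriv hl s).differentiableAt, ?_⟩
  have : deriv (FL l) = fun s => qd (((s / l) ^ 2 - 1) / 3) * (2 * (s / l) / 3) :=
    funext fun s => (FL_deriv hl s).deriv
  rw [this]
  exact (qd_cont.comp (by fun_prop)).mul (by fun_prop)

theorem FL_low {l s : ℝ} (hl : 0 < l) (h : |s| ≤ l) : FL l s = 0 := by
  unfold FL
  rw [qs_zero, mul_zero]
  have h1 : (s / l) ^ 2 ≤ 1 := by
    rw [div_pow, div_le_one (by positivity), ← sq_abs]
    exact pow_le_pow_left₀ (abs_nonneg _) h 2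
  linarith

theorem FL_high {l s : ℝ} (hl : 0 < l) (h : 2 * l ≤ |s|) : FL l s = l := by
  unfold FL
  rw [qs_one, mul_one]
  have h1 : 4 ≤ (s / l) ^ 2 := by
    rw [div_pow, le_div_iff₀ (by positivity), ← sq_abs s]
    nlinarith
  linarith

theorem FL_nonneg {l : ℝ} (hl : 0 < l) (s : ℝ) : 0 ≤ FL l s :=
  mul_nonneg hl.le (qs_nonneg _)

theorem FL_le {l : ℝ} (hl : 0 < l) (s : ℝ) : FL l s ≤ |s| := by
  rcases le_total |s| l with h | h
  · rw [FL_low hl h]
    exact abs_nonneg s
  · refine le_trans ?_ h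
    calc FL l s ≤ l * 1 := mul_le_mul_of_nonneg_left (qs_le _) hl.le
      _ = l := mul_one l

theorem FL_deriv_zero {l s : ℝ} (hl : 0 < l) (h : ¬(l ≤ |s| ∧ |s| < 2 * l)) :
    deriv (FL l) s = 0 := by
  rw [(FL_deriv hl s).deriv, qd_zero, zero_mul]
  rcases lt_or_ge |s| l with h1 | h1
  · left
    have : (s / l) ^ 2 ≤ 1 := by
      rw [div_pow, div_le_one (by positivity), ← sq_abs]
      exact pow_le_pow_left₀ (abs_nonneg _) h1.le 2
    linarith
  · right
    have h2 : 2 * l ≤ |s| := by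
      by_contra h3
      exact h ⟨h1, not_le.1 h3⟩
    have : 4 ≤ (s / l) ^ 2 := by
      rw [div_pow, le_div_iff₀ (by positivity), ← sq_abs s]
      nlinarith
    linarith

theorem FL_deriv_le {l : ℝ} (hl : 0 < l) (s : ℝ) : |deriv (FL l) s| ≤ 2 := by
  by_cases h : l ≤ |s| ∧ |s| < 2 * l
  · rw [(FL_deriv hl s).deriv, abs_mul, abs_of_nonneg (qd_nonneg _)]
    have h1 : |2 * (s / l) / 3| ≤ 4 / 3 := by
      rw [abs_div, abs_mul, abs_div, abs_of_pos hl, abs_of_pos (by norm_num : (0:ℝ) < 2),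
        abs_of_pos (by norm_num : (0:ℝ) < 3)]
      have : |s| / l ≤ 2 := by
        rw [div_le_iff₀ hl]
        linarith [h.2]
      linarith
    calc qd (((s / l) ^ 2 - 1) / 3) * |2 * (s / l) / 3| ≤ 3 / 2 * (4 / 3) :=
          mul_le_mul (qd_le _) h1 (abs_nonneg _) (by norm_num)
      _ = 2 := by norm_num
  · rw [FL_deriv_zero hl h, abs_zero]
    norm_num

/-- the truncated function -/
theorem trunc_h10 {u : E N → ℝ} {U : E N → E N} (h : H10 Ω u U) {l : ℝ} (hl : 0 < l) :
    H10 Ω (fun x => FL l (u x)) (fun x => deriv (FL l) (u x) • U x) :=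
  h.comp (FL_contDiff hl) (FL_low hl (by simpa using hl.le)) (FL_deriv_le hl)

theorem grad_trunc_le {u : E N → ℝ} {U : E N → E N} (hu : Measurable u) {l : ℝ} (hl : 0 < l) :
    ∫⁻ x, ENNReal.ofReal (‖deriv (FL l) (u x) • U x‖ ^ 2) ≤
      4 * ∫⁻ x in {x | l ≤ |u x| ∧ |u x| < 2 * l}, ENNReal.ofReal (‖U x‖ ^ 2) := by
  have hS : MeasurableSet {x | l ≤ |u x| ∧ |u x| < 2 * l} :=
    (measurableSet_le measurable_const hu.abs).inter (measurableSet_lt hu.abs measurable_const)
  rw [← lintegral_indicator hS, ← lintegral_const_mul' _ _ (by norm_num)]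
  apply lintegral_mono
  intro x
  simp only [Set.indicator]
  split_ifs with h
  · rw [show (4 : ℝ≥0∞) = ENNReal.ofReal 4 by norm_num, ← ENNReal.ofReal_mul (by norm_num)]
    apply ENNReal.ofReal_le_ofReal
    rw [norm_smul, mul_pow, Real.norm_eq_abs]
    apply mul_le_mul_of_nonneg_right _ (by positivity)
    have := pow_le_pow_left₀ (abs_nonneg _) (FL_deriv_le hl (u x)) 2
    linarith
  · have h' : ¬(l ≤ |u x| ∧ |u x| < 2 * l) := h
    rw [FL_deriv_zero hl h']
    simp

/-- The level set estimate: if the average of `|u|` over all balls of radius `r` is at most `l/2`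
then `(l²/4) |{|u| ≥ 2l}| ≤ 4 r² ∫_{l ≤ |u| < 2l} |∇u|²`. -/
theorem level {u : E N → ℝ} {U : E N → E N} (h : H10 Ω u U) (hu : Measurable u) {l r : ℝ}
    (hl : 0 < l) (hr : 0 < r)
    (hA : ∀ x : E N, ∫⁻ y in Metric.ball x r, ENNReal.ofReal |u y| ≤
      ENNReal.ofReal (l / 2) * volume (Metric.ball (0 : E N) r)) :
    ENNReal.ofReal (l ^ 2 / 4) * volume {x | 2 * l ≤ |u x|} ≤
      ENNReal.ofReal (r ^ 2) *
        (4 * ∫⁻ x in {x | l ≤ |u x| ∧ |u x| < 2 * l}, ENNReal.ofReal (‖U x‖ ^ 2)) := by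
  set V := volume (Metric.ball (0 : E N) r) with hV
  have hV0 : V ≠ 0 := (Metric.measure_ball_pos volume 0 hr).ne'
  have hVt : V ≠ ∞ := measure_ball_lt_top.ne
  have hS : MeasurableSet {x | 2 * l ≤ |u x|} := measurableSet_le measurable_const hu.abs
  have hF : Measurable fun x => FL l (u x) := (FL_contDiff hl).continuous.measurable.comp hu
  -- the pointwise lower bound
  have h1 : ∀ x, 2 * l ≤ |u x| → ENNReal.ofReal (l ^ 2 / 4) * V ≤
      ∫⁻ y in Metric.ball (0 : E N) r, ENNReal.ofReal ((FL l (u (x + y)) - FL l (u x)) ^ 2) := by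
    intro x hx
    have h2 : ∀ y : E N, ENNReal.ofReal (3 * l ^ 2 / 4) ≤
        ENNReal.ofReal ((FL l (u (x + y)) - FL l (u x)) ^ 2) +
          ENNReal.ofReal l * ENNReal.ofReal |u (x + y)| := by
      intro y
      rw [← ENNReal.ofReal_mul hl.le, ← ENNReal.ofReal_add (by positivity) (by positivity)]
      apply ENNReal.ofReal_le_ofReal
      rw [FL_high hl hx]
      have h3 := FL_le hl (u (x + y))
      nlinarith [sq_nonneg (FL l (u (x + y)) - l / 2), mul_le_mul_of_nonneg_left h3 hl.le]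
    have h4 : ENNReal.ofReal (3 * l ^ 2 / 4) * V ≤
        (∫⁻ y in Metric.ball (0 : E N) r,
          ENNReal.ofReal ((FL l (u (x + y)) - FL l (u x)) ^ 2)) +
          ENNReal.ofReal l * ∫⁻ y in Metric.ball (0 : E N) r, ENNReal.ofReal |u (x + y)| := by
      rw [← lintegral_const_mul' _ _ ENNReal.ofReal_ne_top, ← lintegral_add_left, hV,
        ← setLIntegral_const]
      · exact lintegral_mono fun y => h2 y
      · exact (((hF.comp (measurable_const_add x)).sub_const _).pow_const 2).ennreal_ofReal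
    have h5 : ∫⁻ y in Metric.ball (0 : E N) r, ENNReal.ofReal |u (x + y)| =
        ∫⁻ y in Metric.ball x r, ENNReal.ofReal |u y| := by
      rw [← lintegral_indicator Metric.isOpen_ball.measurableSet,
        ← lintegral_indicator Metric.isOpen_ball.measurableSet,
        ← lintegral_add_left_eq_self
          ((Metric.ball x r).indicator fun y => ENNReal.ofReal |u y|) x]
      apply lintegral_congr
      intro y
      simp [Set.indicator, dist_eq_norm]
    rw [h5] at h4
    have h6 := h4.trans (add_le_add_right (mul_le_mul_right (hA x) (ENNReal.ofReal l)) _)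
    have h7 : ENNReal.ofReal (3 * l ^ 2 / 4) * V =
        ENNReal.ofReal (l ^ 2 / 4) * V + ENNReal.ofReal l * (ENNReal.ofReal (l / 2) * V) := by
      rw [← mul_assoc, ← ENNReal.ofReal_mul hl.le, ← add_mul,
        ← ENNReal.ofReal_add (by positivity) (by positivity)]
      congr 2
      ring
    rw [h7] at h6
    have hfin : ENNReal.ofReal l * (ENNReal.ofReal (l / 2) * V) ≠ ∞ :=
      ENNReal.mul_ne_top ENNReal.ofReal_ne_top (ENNReal.mul_ne_top ENNReal.ofReal_ne_top hVt)
    exact (ENNReal.add_le_add_iff_right hfin).1 h6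
  -- integrate in x
  have h8 : ENNReal.ofReal (l ^ 2 / 4) * V * volume {x | 2 * l ≤ |u x|} ≤
      ∫⁻ x, ∫⁻ y in Metric.ball (0 : E N) r,
        ENNReal.ofReal ((FL l (u (x + y)) - FL l (u x)) ^ 2) := by
    rw [← setLIntegral_const]
    calc ∫⁻ _ in {x | 2 * l ≤ |u x|}, ENNReal.ofReal (l ^ 2 / 4) * V
        ≤ ∫⁻ x in {x | 2 * l ≤ |u x|}, ∫⁻ y in Metric.ball (0 : E N) r,
          ENNReal.ofReal ((FL l (u (x + y)) - FL l (u x)) ^ 2) :=
          setLIntegral_mono' hS fun x hx => h1 x hx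
      _ ≤ _ := setLIntegral_le_lintegral _ _
  have h9 : ∫⁻ x, ∫⁻ y in Metric.ball (0 : E N) r,
        ENNReal.ofReal ((FL l (u (x + y)) - FL l (u x)) ^ 2) =
      ∫⁻ y in Metric.ball (0 : E N) r, ∫⁻ x,
        ENNReal.ofReal ((FL l (u (x + y)) - FL l (u x)) ^ 2) := by
    apply lintegral_lintegral_swap
    apply Measurable.aemeasurable
    apply Measurable.ennreal_ofReal
    apply Measurable.pow_const
    exact (hF.comp (measurable_fst.add measurable_snd)).sub (hF.comp measurable_fst)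
  have h10 : ∫⁻ y in Metric.ball (0 : E N) r, ∫⁻ x,
        ENNReal.ofReal ((FL l (u (x + y)) - FL l (u x)) ^ 2) ≤
      ENNReal.ofReal (r ^ 2) * (4 * ∫⁻ x in {x | l ≤ |u x| ∧ |u x| < 2 * l},
        ENNReal.ofReal (‖U x‖ ^ 2)) * V := by
    rw [hV, ← setLIntegral_const]
    apply setLIntegral_mono' Metric.isOpen_ball.measurableSet
    intro y hy
    refine (trans_h10 (trunc_h10 h hl) y).trans ?_
    apply mul_le_mul' _ (grad_trunc_le hu hl)
    apply ENNReal.ofReal_le_ofReal
    rw [mem_ball_zero_iff] at hy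
    exact pow_le_pow_left₀ (norm_nonneg _) hy.le 2
  have h11 := h8.trans (h9.le.trans h10)
  have h12 : ENNReal.ofReal (l ^ 2 / 4) * V * volume {x | 2 * l ≤ |u x|} =
      ENNReal.ofReal (l ^ 2 / 4) * volume {x | 2 * l ≤ |u x|} * V := by ring
  rw [h12] at h11
  exact (ENNReal.mul_le_mul_iff_left hV0 hVt).1 h11

end Pool.Agent.H68.Hx
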